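import Pool.Agent.H86.Perc.Lower

/-!
Largest minimal percolating sets of the `m × n` grid for fixed `m`: the exact slope in `n`.
-/

set_option autoImplicit false

namespace Pool.Agent.Results.MP_849d81_co.ThinGrids

/-- Two sites of the `m × n` grid are adjacent when they differ by `1` in exactly one coordinate. -/
def Adj {m n : ℕ} (u v : Fin m × Fin n) : Prop :=
  (u.1 = v.1 ∧ (u.2.val + 1 = v.2.val ∨ v.2.val + 1 = u.2.val)) ∨
  (u.2 = v.2 ∧ (u.1.val + 1 = v.1.val ∨ v.1.val + 1 = u.1.val))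

/-- One step: the infected sites stay infected, and a site with two infected neighbours (at least)
becomes infected. -/
def step {m n : ℕ} (A : Set (Fin m × Fin n)) : Set (Fin m × Fin n) :=
  {v | v ∈ A ∨ ∃ u w, u ≠ w ∧ Adj u v ∧ Adj w v ∧ u ∈ A ∧ w ∈ A}

/-- Every site is eventually infected. -/
def Percolates {m n : ℕ} (A : Set (Fin m × Fin n)) : Prop := ∀ v, ∃ t : ℕ, v ∈ step^[t] A

/-- `A` percolates and no proper subset of `A` percolates. -/
def MinimalPercolating {m n : ℕ} (A : Finset (Fin m × Fin n)) : Prop :=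
  Percolates (A : Set (Fin m × Fin n)) ∧
    ∀ B : Finset (Fin m × Fin n), B ⊂ A → ¬ Percolates (B : Set (Fin m × Fin n))

/-- `E m n`: the largest cardinality of a minimal percolating set of the `m × n` grid. -/
noncomputable def E (m n : ℕ) : ℕ :=
  sSup {k : ℕ | ∃ A : Finset (Fin m × Fin n), MinimalPercolating A ∧ A.card = k}

open Pool.Agent.Q131.Perc Pool.Agent.H86.Perc

/-- the embedding of the grid in the lattice -/
def emb {m n : ℕ} (v : Fin m × Fin n) : ℤ × ℤ := (((v.1 : ℕ) : ℤ), ((v.2 : ℕ) : ℤ))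

theorem emb_inj {m n : ℕ} : Function.Injective (emb : Fin m × Fin n → ℤ × ℤ) := by
  rintro ⟨a, b⟩ ⟨c, d⟩ h
  simp only [emb, Prod.mk.injEq] at h
  refine Prod.ext (Fin.ext ?_) (Fin.ext ?_) <;> simp only <;> omega

theorem emb_mem {m n : ℕ} (v : Fin m × Fin n) : emb v ∈ Rect 0 ((m : ℤ) - 1) 0 ((n : ℤ) - 1) := by
  obtain ⟨a, b⟩ := v
  simp only [emb]
  rw [mem_Rect]
  omega

theorem exists_emb {m n : ℕ} {v : ℤ × ℤ} (hv : v ∈ Rect 0 ((m : ℤ) - 1) 0 ((n : ℤ) - 1)) :
    ∃ u : Fin m × Fin n, emb u = v := by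
  obtain ⟨a, b⟩ := v
  rw [mem_Rect] at hv
  refine ⟨(⟨a.toNat, by omega⟩, ⟨b.toNat, by omega⟩), ?_⟩
  simp only [emb, Prod.mk.injEq]
  omega

theorem adj_emb {m n : ℕ} (u v : Fin m × Fin n) :
    ThinGrids.Adj u v ↔ Pool.Agent.Q131.Perc.Adj (emb u) (emb v) := by
  obtain ⟨a, b⟩ := u
  obtain ⟨c, d⟩ := v
  simp only [ThinGrids.Adj, Pool.Agent.Q131.Perc.Adj, emb, Fin.ext_iff]
  omega

theorem step_mono {m n : ℕ} (A : Set (Fin m × Fin n)) (t k : ℕ) :
    step^[t] A ⊆ step^[t + k] A := by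
  induction k with
  | zero => exact subset_rfl
  | succ k ih =>
    refine ih.trans ?_
    rw [← add_assoc, Function.iterate_succ_apply']
    exact fun v hv => Or.inl hv

/-- the infected sites are those of the closure -/
theorem mem_step_iff {m n : ℕ} (A : Finset (Fin m × Fin n)) (v : Fin m × Fin n) :
    (∃ t : ℕ, v ∈ step^[t] (A : Set (Fin m × Fin n))) ↔
      emb v ∈ cl ((A.image emb : Finset (ℤ × ℤ)) : Set (ℤ × ℤ)) := by
  constructor
  · rintro ⟨t, ht⟩ S hS hAS
    have key : ∀ (t : ℕ) (v : Fin m × Fin n), v ∈ step^[t] (A : Set (Fin m × Fin n)) →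
        emb v ∈ S := by
      intro t
      induction t with
      | zero =>
        intro v hv
        exact hAS (by simpa using ⟨v.1, v.2, hv, rfl⟩)
      | succ t ih =>
        intro v hv
        rw [Function.iterate_succ_apply'] at hv
        rcases hv with hv | ⟨u, w, hne, a1, a2, a3, a4⟩
        · exact ih v hv
        · exact hS _ _ _ ((adj_emb _ _).mp a1) ((adj_emb _ _).mp a2) (fun h => hne (emb_inj h))
            (ih u a3) (ih w a4)
    exact key t v ht
  · intro hv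
    have hcl : Closed {v : ℤ × ℤ | ∃ u, emb u = v ∧ ∃ t : ℕ,
        u ∈ step^[t] (A : Set (Fin m × Fin n))} := by
      rintro u v w h1 h2 hne ⟨u', rfl, t1, hu⟩ ⟨w', rfl, t2, hw⟩
      have hv := closed_rect 0 ((m : ℤ) - 1) 0 ((n : ℤ) - 1) _ _ _ h1 h2 hne (emb_mem u') (emb_mem w')
      obtain ⟨v', rfl⟩ := exists_emb hv
      refine ⟨v', rfl, t1 + t2 + 1, ?_⟩
      rw [Function.iterate_succ_apply']
      refine Or.inr ⟨u', w', fun h => hne (by rw [h]), (adj_emb _ _).mpr h1, (adj_emb _ _).mpr h2,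
        step_mono _ t1 t2 hu, ?_⟩
      rw [add_comm t1 t2]
      exact step_mono _ t2 t1 hw
    have h1 := hv _ hcl (by
      intro u hu
      rw [Finset.mem_coe, Finset.mem_image] at hu
      obtain ⟨w, hw, rfl⟩ := hu
      exact ⟨w, rfl, 0, hw⟩)
    obtain ⟨u, hu, t, ht⟩ := h1
    rw [← emb_inj hu]
    exact ⟨t, ht⟩

theorem percolates_iff {m n : ℕ} (A : Finset (Fin m × Fin n)) :
    Percolates (A : Set (Fin m × Fin n)) ↔
      Rect 0 ((m : ℤ) - 1) 0 ((n : ℤ) - 1) ⊆ cl ((A.image emb : Finset (ℤ × ℤ)) : Set (ℤ × ℤ)) := by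
  constructor
  · intro h v hv
    obtain ⟨u, rfl⟩ := exists_emb hv
    exact (mem_step_iff A u).mp (h u)
  · intro h v
    exact (mem_step_iff A v).mpr (h (emb_mem v))

theorem minimal_iff {m n : ℕ} (hm : 1 ≤ m) (hn : 1 ≤ n) (A : Finset (Fin m × Fin n)) :
    MinimalPercolating A ↔ Sp (A.image emb) 0 ((m : ℤ) - 1) 0 ((n : ℤ) - 1) ∧
      Ind ∅ (A.image emb) := by
  classical
  have hsub : ∀ v ∈ A.image emb, v ∈ Rect 0 ((m : ℤ) - 1) 0 ((n : ℤ) - 1) := by
    intro v hv
    obtain ⟨u, -, rfl⟩ := Finset.mem_image.mp hv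
    exact emb_mem u
  constructor
  · rintro ⟨h1, h2⟩
    refine ⟨Sp.of_le (by omega) (by omega) hsub ((percolates_iff A).mp h1), ?_⟩
    intro x hx hmem
    obtain ⟨u, hu, rfl⟩ := Finset.mem_image.mp hx
    rw [Set.empty_union, ← Finset.image_erase emb_inj] at hmem
    apply h2 (A.erase u) (Finset.erase_ssubset hu)
    rw [percolates_iff]
    refine ((percolates_iff A).mp h1).trans (cl_min (closed_cl _) ?_)
    intro v hv
    rw [Finset.mem_coe, Finset.mem_image] at hv
    obtain ⟨w, hw, rfl⟩ := hv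
    by_cases hwu : w = u
    · rw [hwu]; exact hmem
    · apply subset_cl
      rw [Finset.mem_coe, Finset.mem_image]
      exact ⟨w, Finset.mem_erase.mpr ⟨hwu, hw⟩, rfl⟩
  · rintro ⟨h1, h2⟩
    refine ⟨(percolates_iff A).mpr (by rw [h1.eq]), ?_⟩
    intro B hB hperc
    rw [percolates_iff] at hperc
    obtain ⟨x, hxA, hxB⟩ := Finset.exists_of_ssubset hB
    apply h2 (emb x) (Finset.mem_image_of_mem _ hxA)
    rw [Set.empty_union, ← Finset.image_erase emb_inj]
    refine cl_mono ?_ (hperc (emb_mem x))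
    intro v hv
    rw [Finset.mem_coe, Finset.mem_image] at hv ⊢
    obtain ⟨w, hw, rfl⟩ := hv
    exact ⟨w, Finset.mem_erase.mpr ⟨fun e => hxB (e ▸ hw), hB.1 hw⟩, rfl⟩

theorem card_le_E {m n : ℕ} {A : Finset (Fin m × Fin n)} (hA : MinimalPercolating A) :
    A.card ≤ E m n := by
  refine le_csSup ⟨Fintype.card (Fin m × Fin n), ?_⟩ ⟨A, hA, rfl⟩
  rintro k ⟨B, -, rfl⟩
  exact Finset.card_le_univ B

theorem E_le {m n k : ℕ} (h : ∀ A : Finset (Fin m × Fin n), MinimalPercolating A → 3 * A.card ≤ k) :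
    3 * E m n ≤ k := by
  by_cases hne : {k : ℕ | ∃ A : Finset (Fin m × Fin n), MinimalPercolating A ∧ A.card = k}.Nonempty
  · have h1 := Nat.sSup_mem hne ⟨Fintype.card (Fin m × Fin n), by
      rintro k ⟨B, -, rfl⟩
      exact Finset.card_le_univ B⟩
    obtain ⟨A, hA, hc⟩ := h1
    have h2 := h A hA
    rw [hc] at h2
    exact h2
  · rw [Set.not_nonempty_iff_eq_empty] at hne
    unfold E
    rw [hne]
    simp

theorem bound (m : ℕ) (hm : 2 ≤ m) : ∃ C : ℕ, ∀ n : ℕ, 1 ≤ n →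
    3 * E m n ≤ 2 * ((m + 3) / 5) * n + C ∧ 2 * ((m + 3) / 5) * n ≤ 3 * E m n + C := by
  classical
  obtain ⟨C, hC⟩ := upper m hm
  refine ⟨C + 2 * ((m + 3) / 5) * (2 * ((m + 3) / 5) + 3), ?_⟩
  intro n hn
  constructor
  · refine E_le ?_
    intro A hA
    obtain ⟨h1, h2⟩ := (minimal_iff (by omega) hn A).mp hA
    have h3 := hC n _ h2 h1
    rw [Finset.card_image_of_injective _ emb_inj] at h3
    generalize 2 * ((m + 3) / 5) * n = X at *
    generalize 2 * ((m + 3) / 5) * (2 * ((m + 3) / 5) + 3) = Y at *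
    omega
  · rcases Nat.lt_or_ge n (2 * ((m + 3) / 5) + 3) with h | h
    · have h1 : 2 * ((m + 3) / 5) * n ≤ 2 * ((m + 3) / 5) * (2 * ((m + 3) / 5) + 3) :=
        Nat.mul_le_mul_left _ h.le
      omega
    · obtain ⟨A, h1, h2, h3⟩ := lower m hm n h
      let A' : Finset (Fin m × Fin n) := Finset.univ.filter fun v => emb v ∈ A
      have himg : A'.image emb = A := by
        ext v
        rw [Finset.mem_image]
        constructor
        · rintro ⟨u, hu, rfl⟩
          simpa [A'] using hu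
        · intro hv
          obtain ⟨u, rfl⟩ := exists_emb (h2.mem hv)
          exact ⟨u, by simpa [A'] using hv, rfl⟩
      have h4 : MinimalPercolating A' := by
        rw [minimal_iff (by omega) hn, himg]
        exact ⟨h2, h1⟩
      have h5 := card_le_E h4
      have h6 : A'.card = A.card := by
        rw [← himg, Finset.card_image_of_injective _ emb_inj]
      rw [h6] at h5
      have h7 : 2 * ((m + 3) / 5) * n ≤
          2 * ((m + 3) / 5) * (n - 2 * ((m + 3) / 5)) +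
            2 * ((m + 3) / 5) * (2 * ((m + 3) / 5) + 3) := by
        rw [← Nat.mul_add]
        exact Nat.mul_le_mul_left _ (by omega)
      omega

theorem slope (m : ℕ) (hm : 2 ≤ m) :
    Filter.Tendsto (fun n : ℕ => (E m n : ℝ) / (n : ℝ)) Filter.atTop
      (nhds (2 / 3 * (((m + 3) / 5 : ℕ) : ℝ))) := by
  obtain ⟨C, hC⟩ := bound m hm
  generalize ((m + 3) / 5 : ℕ) = s at *
  have hlim : Filter.Tendsto (fun n : ℕ => (C : ℝ) / 3 * (1 / (n : ℝ))) Filter.atTop (nhds 0) := by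
    have := (tendsto_one_div_atTop_nhds_zero_nat (𝕜 := ℝ)).const_mul ((C : ℝ) / 3)
    rwa [mul_zero] at this
  rw [tendsto_iff_dist_tendsto_zero]
  refine squeeze_zero' (Filter.Eventually.of_forall fun n => dist_nonneg) ?_ hlim
  filter_upwards [Filter.eventually_ge_atTop 1] with n hn
  obtain ⟨h1, h2⟩ := hC n hn
  have hn0 : (0 : ℝ) < n := by exact_mod_cast hn
  have h1' : 3 * (E m n : ℝ) ≤ 2 * s * n + C := by exact_mod_cast h1
  have h2' : 2 * (s : ℝ) * n ≤ 3 * E m n + C := by exact_mod_cast h2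
  rw [Real.dist_eq, abs_le]
  have e1 : (E m n : ℝ) / n - 2 / 3 * s = (3 * E m n - 2 * s * n) / (3 * n) := by
    field_simp
  have e2 : (C : ℝ) / 3 * (1 / n) = C / (3 * n) := by
    field_simp
  rw [e1, e2]
  constructor
  · rw [← neg_div, div_le_div_iff_of_pos_right (by positivity)]
    linarith
  · rw [div_le_div_iff_of_pos_right (by positivity)]
    linarith

/-- **Main theorem.** For every fixed `m ≥ 2` the largest size `E m n` of a minimal percolating set
of the `m × n` grid is `(2/3) ⌊(m + 3) / 5⌋ n + O_m(1)`; in particular the iterated limit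
`lim_m lim_n E m n / (m n)` is `2 / 15`. -/
theorem result :
    (∀ m : ℕ, 2 ≤ m → ∃ C : ℕ, ∀ n : ℕ, 1 ≤ n →
      3 * E m n ≤ 2 * ((m + 3) / 5) * n + C ∧ 2 * ((m + 3) / 5) * n ≤ 3 * E m n + C) ∧
    (∀ m : ℕ, 2 ≤ m → Filter.Tendsto (fun n : ℕ => (E m n : ℝ) / (n : ℝ)) Filter.atTop
      (nhds (2 / 3 * (((m + 3) / 5 : ℕ) : ℝ)))) ∧
    ∃ e : ℕ → ℝ, (∀ m : ℕ, 2 ≤ m → Filter.Tendsto (fun n : ℕ => (E m n : ℝ) / ((m : ℝ) * n))
      Filter.atTop (nhds (e m))) ∧ Filter.Tendsto e Filter.atTop (nhds (2 / 15)) := by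
  refine ⟨bound, slope, fun m => 2 / 3 * (((m + 3) / 5 : ℕ) : ℝ) / m, ?_, ?_⟩
  · intro m hm
    have h1 := (slope m hm).div_const (m : ℝ)
    refine h1.congr fun n => ?_
    rw [div_div, mul_comm (n : ℝ) m]
  · rw [tendsto_iff_dist_tendsto_zero]
    have hlim : Filter.Tendsto (fun n : ℕ => 2 * (1 / (n : ℝ))) Filter.atTop (nhds 0) := by
      have := (tendsto_one_div_atTop_nhds_zero_nat (𝕜 := ℝ)).const_mul 2
      rwa [mul_zero] at this
    refine squeeze_zero' (Filter.Eventually.of_forall fun n => dist_nonneg) ?_ hlim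
    filter_upwards [Filter.eventually_ge_atTop 1] with m hm
    have hm0 : (0 : ℝ) < m := by exact_mod_cast hm
    have h1 : 5 * ((m + 3) / 5) ≤ m + 3 := by omega
    have h2 : m ≤ 5 * ((m + 3) / 5) + 1 := by omega
    generalize ((m + 3) / 5 : ℕ) = s at *
    have h1' : 5 * (s : ℝ) ≤ m + 3 := by exact_mod_cast h1
    have h2' : (m : ℝ) ≤ 5 * s + 1 := by exact_mod_cast h2
    rw [Real.dist_eq, abs_le]
    have e1 : 2 / 3 * (s : ℝ) / m - 2 / 15 = (10 * s - 2 * m) / (15 * m) := by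
      field_simp
      ring
    have e2 : 2 * (1 / (m : ℝ)) = 30 / (15 * m) := by
      field_simp
      norm_num
    rw [e1, e2]
    constructor
    · rw [← neg_div, div_le_div_iff_of_pos_right (by positivity)]
      linarith
    · rw [div_le_div_iff_of_pos_right (by positivity)]
      linarith

end Pool.Agent.Results.MP_849d81_co.ThinGrids
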